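import Mathlib
import Pool.Agent.V11177.ToricSn

/-!
MP_dd0c5a, Q1 (disproved).  For `n = 4`, every field and every admissible order, the reduced
Groebner basis of the toric ideal of `S_4` contains a cubic binomial whose matrix is
`2 J_3 ⊕ (6)`, which has a block form.
-/

namespace Pool.Agent.Results.MP_dd0c5a_co.DisconnectedElement

open Finset MvPolynomial ToricSn

/-! ### Generalities -/

section gen

variable {n : ℕ} {lt : Lat n → Lat n → Prop}

/-- the variable `t_M` as an exponent vector -/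
noncomputable abbrev e (M : Lat n) : Lat n →₀ ℕ := Finsupp.single M 1

lemma matSum_apply (u : Lat n →₀ ℕ) (i j : Fin n) :
    matSum u i j = ∑ M ∈ u.support, u M * M.1 i j := by
  unfold matSum Finsupp.sum
  rw [Matrix.sum_apply]
  rfl

lemma matSum_add (u v : Lat n →₀ ℕ) : matSum (u + v) = matSum u + matSum v := by
  ext i j
  have h := congrArg (fun x => x (some (i, j))) (expo_add u v)
  simp only [Finsupp.add_apply, expo_some] at h
  exact h

lemma matSum_e (M : Lat n) : matSum (e M) = M.1 := by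
  unfold matSum
  rw [Finsupp.sum_single_index (by simp), one_smul]

lemma le_matSum {u : Lat n →₀ ℕ} {N : Lat n} (hN : u N ≠ 0) (i j : Fin n) :
    N.1 i j ≤ matSum u i j := by
  rw [matSum_apply]
  have h1 : u N * N.1 i j ≤ ∑ M ∈ u.support, u M * M.1 i j :=
    Finset.single_le_sum (f := fun M => u M * M.1 i j) (fun _ _ => Nat.zero_le _)
      (Finsupp.mem_support_iff.mpr hN)
  have h2 : 1 ≤ u N := Nat.one_le_iff_ne_zero.mpr hN
  nlinarith [Nat.zero_le (N.1 i j)]

lemma entry_le_two (M : Lat n) (i j : Fin n) : M.1 i j ≤ 2 := by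
  have h1 := M.2.2 i
  have h2 : M.1 i j ≤ ∑ j, M.1 i j := Finset.single_le_sum (fun _ _ => Nat.zero_le _) (mem_univ j)
  omega

lemma corner {u : Lat n →₀ ℕ} {i : Fin n} (h : matSum u i i = 2 * u.degree) {N : Lat n}
    (hN : u N ≠ 0) : N.1 i i = 2 := by
  rw [matSum_apply, Finsupp.degree_apply, Finset.mul_sum] at h
  have h1 : ∀ M ∈ u.support, u M * M.1 i i ≤ 2 * u M := by
    intro M _
    have := entry_le_two M i i
    nlinarith [Nat.zero_le (u M)]
  have h2 := (Finset.sum_eq_sum_iff_of_le h1).mp h N (Finsupp.mem_support_iff.mpr hN)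
  have h3 : 1 ≤ u N := Nat.one_le_iff_ne_zero.mpr hN
  have := entry_le_two N i i
  by_contra hc
  have h4 : N.1 i i ≤ 1 := by omega
  nlinarith

/-- extending a standard monomial by a variable that is smallest in the fiber -/
lemma step_std (M : Lat n) (u : Lat n →₀ ℕ) (hu : Std lt u)
    (hlow : ∀ v : Lat n →₀ ℕ, expo v = expo (e M + u) → ∀ N, v N ≠ 0 → ¬ lt N M) :
    Std lt (e M + u) := by
  intro v hv hne
  by_cases hvM : v M = 0
  · right
    refine ⟨((expo_eq_iff _ _).mp hv).1.symm, M, ?_, fun N hN => ?_⟩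
    · rw [hvM, Finsupp.add_apply, Finsupp.single_eq_same]; omega
    · have h1 : (e M + u) N = 0 := by
        by_contra hc
        exact hlow _ rfl N hc hN
      have h2 : v N = 0 := by
        by_contra hc
        exact hlow _ hv N hc hN
      rw [h1, h2]
  · obtain ⟨v', rfl⟩ : ∃ v', v = e M + v' := by
      refine ⟨v - e M, ?_⟩
      rw [add_comm, tsub_add_cancel_of_le]
      intro N
      by_cases hN : N = M
      · subst hN
        rw [Finsupp.single_eq_same]; omega
      · rw [Finsupp.single_eq_of_ne hN]; omega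
    apply rlt_add
    apply hu
    · rw [expo_add, expo_add] at hv
      exact add_left_cancel hv
    · intro h; exact hne (by rw [h])

lemma deg_succ {u : Lat n →₀ ℕ} {d : ℕ} (h : u.degree = d + 1) :
    ∃ X v, u = e X + v ∧ v.degree = d := by
  have hne : u ≠ 0 := by
    intro h0
    rw [h0, map_zero] at h; omega
  obtain ⟨X, hX⟩ : ∃ X, u X ≠ 0 := by
    by_contra hc
    push Not at hc
    exact hne (Finsupp.ext hc)
  obtain ⟨v, rfl⟩ : ∃ v, u = e X + v := by
    refine ⟨u - e X, ?_⟩
    rw [add_comm, tsub_add_cancel_of_le]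
    intro N
    by_cases hN : N = X
    · subst hN
      rw [Finsupp.single_eq_same]; omega
    · rw [Finsupp.single_eq_of_ne hN]; omega
  refine ⟨X, v, rfl, ?_⟩
  rw [map_add, Finsupp.degree_single] at h
  omega

lemma deg_two {u : Lat n →₀ ℕ} (h : u.degree = 2) : ∃ X Y, u = e X + e Y := by
  obtain ⟨X, v, rfl, hv⟩ := deg_succ h
  obtain ⟨Y, w, rfl, hw⟩ := deg_succ hv
  rw [Finsupp.degree_eq_zero_iff] at hw
  exact ⟨X, Y, by rw [hw, add_zero]⟩

lemma std_single (X : Lat n) : Std lt (e X) := by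
  intro v hv hne
  exfalso
  have h1 := ((expo_eq_iff _ _).mp hv).1
  rw [Finsupp.degree_single] at h1
  obtain ⟨Y, w, rfl, hw⟩ := deg_succ h1
  rw [Finsupp.degree_eq_zero_iff] at hw
  subst hw
  have h2 := ((expo_eq_iff _ _).mp hv).2
  rw [add_zero, matSum_e, matSum_e] at h2
  apply hne
  rw [add_zero, Subtype.ext h2]

lemma div_of {A B C : Lat n} (hAB : Std lt (e A + e B)) (hAC : Std lt (e A + e C))
    (hBC : Std lt (e B + e C)) (w' : Lat n →₀ ℕ) (hle : w' ≤ e A + (e B + e C))
    (hne : w' ≠ e A + (e B + e C)) : Std lt w' := by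
  classical
  obtain ⟨M, hM⟩ : ∃ M, w' M < (e A + (e B + e C)) M := by
    by_contra hc
    push Not at hc
    exact hne (le_antisymm hle hc)
  have hle' : ∀ N, w' N ≤ (e A + (e B + e C)) N := hle
  have hmem : M = A ∨ M = B ∨ M = C := by
    by_contra hc
    push Not at hc
    obtain ⟨h1, h2, h3⟩ := hc
    simp only [Finsupp.add_apply, Finsupp.single_apply, if_neg (Ne.symm h1), if_neg (Ne.symm h2),
      if_neg (Ne.symm h3)] at hM
    omega
  simp only [Finsupp.add_apply, Finsupp.single_apply] at hM hle'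
  rcases hmem with h | h | h
  · subst h
    refine hBC.of_le fun N => ?_
    have := hle' N
    simp only [Finsupp.add_apply, Finsupp.single_apply]
    by_cases hN : M = N
    · subst hN; simp at hM ⊢; omega
    · rw [if_neg hN] at this; omega
  · subst h
    refine hAC.of_le fun N => ?_
    have := hle' N
    simp only [Finsupp.add_apply, Finsupp.single_apply]
    by_cases hN : M = N
    · subst hN; simp at hM ⊢; omega
    · rw [if_neg hN] at this; omega
  · subst h
    refine hAB.of_le fun N => ?_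
    have := hle' N
    simp only [Finsupp.add_apply, Finsupp.single_apply]
    by_cases hN : M = N
    · subst hN; simp at hM ⊢; omega
    · rw [if_neg hN] at this; omega

theorem exists_admissible (n : ℕ) : ∃ lt : Lat n → Lat n → Prop, Admissible lt := by
  let lt : Lat n → Lat n → Prop := fun M N =>
    twos N < twos M ∨ (twos M = twos N ∧ WellOrderingRel M N)
  refine ⟨lt, ?_, fun M N h => Or.inl h⟩
  refine { trichotomous := ?_, irrefl := ?_, trans := ?_ }
  · intro a b hab hba
    by_contra hne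
    rcases Nat.lt_trichotomy (twos a) (twos b) with h | h | h
    · exact hba (Or.inl h)
    · rcases trichotomous_of WellOrderingRel a b with h1 | h1 | h1
      · exact hab (Or.inr ⟨h, h1⟩)
      · exact hne h1
      · exact hba (Or.inr ⟨h.symm, h1⟩)
    · exact hab (Or.inl h)
  · rintro a (h | ⟨_, h⟩)
    · exact lt_irrefl _ h
    · exact irrefl_of WellOrderingRel a h
  · rintro a b c (h | ⟨h, h'⟩) (g | ⟨g, g'⟩)
    · exact Or.inl (g.trans h)
    · exact Or.inl (g ▸ h)
    · exact Or.inl (h ▸ g)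
    · exact Or.inr ⟨h.trans g, _root_.trans h' g'⟩

end gen

/-! ### The face `m_44 = 2` for `n = 4` -/

/-- matrices on the face -/
def mat (a b c : ℕ) : Matrix (Fin 4) (Fin 4) ℕ :=
  !![2 - a - b, a, b, 0; a, 2 - a - c, c, 0; b, c, 2 - b - c, 0; 0, 0, 0, 2]

/-- lattice points on the face -/
def F (a b c : ℕ) (h : a + b ≤ 2 ∧ a + c ≤ 2 ∧ b + c ≤ 2) : Lat 4 :=
  ⟨mat a b c, by
    constructor
    · intro i j
      fin_cases i <;> fin_cases j <;> rfl
    · intro i
      rw [Fin.sum_univ_four]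
      fin_cases i <;> simp [mat] <;> omega⟩

/-- `2 I` -/
def D : Lat 4 := F 0 0 0 (by omega)
/-- transposition on the first two coordinates, doubled -/
def T3 : Lat 4 := F 2 0 0 (by omega)
/-- transposition on coordinates 1, 3, doubled -/
def T2 : Lat 4 := F 0 2 0 (by omega)
/-- transposition on coordinates 2, 3, doubled -/
def T1 : Lat 4 := F 0 0 2 (by omega)
/-- `(J - I) ⊕ (2)` -/
def P : Lat 4 := F 1 1 1 (by omega)

lemma rows (X : Lat 4) (_ : X.1 3 3 = 2) :
    X.1 0 1 + X.1 0 2 ≤ 2 ∧ X.1 0 1 + X.1 1 2 ≤ 2 ∧ X.1 0 2 + X.1 1 2 ≤ 2 := by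
  have r0 := X.2.2 0
  have r1 := X.2.2 1
  have r2 := X.2.2 2
  rw [Fin.sum_univ_four] at r0 r1 r2
  have s1 := X.2.1 1 0
  have s2 := X.2.1 2 0
  have s3 := X.2.1 2 1
  omega

lemma classify (X : Lat 4) (h : X.1 3 3 = 2) :
    X = F (X.1 0 1) (X.1 0 2) (X.1 1 2) (rows X h) := by
  have r0 := X.2.2 0
  have r1 := X.2.2 1
  have r2 := X.2.2 2
  have r3 := X.2.2 3
  rw [Fin.sum_univ_four] at r0 r1 r2 r3
  have s1 := X.2.1 1 0
  have s2 := X.2.1 2 0
  have s3 := X.2.1 2 1
  have s4 := X.2.1 3 0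
  have s5 := X.2.1 3 1
  have s6 := X.2.1 3 2
  apply Subtype.ext
  ext i j
  fin_cases i <;> fin_cases j <;> simp [F, mat] <;> omega

lemma face_ext {X Y : Lat 4} (hX : X.1 3 3 = 2) (hY : Y.1 3 3 = 2) (h1 : X.1 0 1 = Y.1 0 1)
    (h2 : X.1 0 2 = Y.1 0 2) (h3 : X.1 1 2 = Y.1 1 2) : X = Y := by
  rw [classify X hX, classify Y hY]
  simp only [h1, h2, h3]

lemma twos_F (a b c : ℕ) (h : a + b ≤ 2 ∧ a + c ≤ 2 ∧ b + c ≤ 2) : twos (F a b c h) =
    (univ.filter (fun p : Fin 4 × Fin 4 => mat a b c p.1 p.2 = 2)).card := rfl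

lemma special_or (X : Lat 4) (h : X.1 3 3 = 2) :
    X = D ∨ X = T1 ∨ X = T2 ∨ X = T3 ∨ twos X < 4 := by
  obtain ⟨h1, h2, h3⟩ := rows X h
  have hc := classify X h
  generalize_proofs hp at hc
  generalize X.1 0 1 = a at *
  generalize X.1 0 2 = b at *
  generalize X.1 1 2 = c at *
  have ha : a ≤ 2 := by omega
  have hb : b ≤ 2 := by omega
  have hc' : c ≤ 2 := by omega
  rw [hc]
  interval_cases a <;> interval_cases b <;> interval_cases c <;>
    first
    | omega
    | (left; rfl)
    | (right; left; rfl)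
    | (right; right; left; rfl)
    | (right; right; right; left; rfl)
    | (right; right; right; right; rw [twos_F]; decide)

lemma e4 (A : Lat 4) (hA : twos A = 4) {lt : Lat 4 → Lat 4 → Prop} (hlt : Admissible lt)
    {N : Lat 4} (hN : twos N < 4) : ¬ lt N A := by
  intro h
  have h2 : lt A N := hlt.ext A N (by omega)
  have := hlt.strictTotal
  exact irrefl_of lt N (_root_.trans h h2)

lemma twos_D : twos D = 4 := by decide
lemma twos_T1 : twos T1 = 4 := by decide
lemma twos_T2 : twos T2 = 4 := by decide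
lemma twos_T3 : twos T3 = 4 := by decide

section std4

variable {lt : Lat 4 → Lat 4 → Prop}

lemma corner2 {A B : Lat 4} (hA : A.1 3 3 = 2) (hB : B.1 3 3 = 2) {v : Lat 4 →₀ ℕ}
    (hv : expo v = expo (e A + e B)) {N : Lat 4} (hN : v N ≠ 0) :
    N.1 3 3 = 2 ∧ ∀ i j, N.1 i j ≤ A.1 i j + B.1 i j := by
  obtain ⟨h1, h2⟩ := (expo_eq_iff _ _).mp hv
  rw [map_add, Finsupp.degree_single, Finsupp.degree_single] at h1
  rw [matSum_add, matSum_e, matSum_e] at h2
  constructor
  · apply corner _ hN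
    rw [h1, h2, Matrix.add_apply, hA, hB]
  · intro i j
    have := le_matSum hN i j
    rw [h2, Matrix.add_apply] at this
    exact this

lemma corner3 {A B C : Lat 4} (hA : A.1 3 3 = 2) (hB : B.1 3 3 = 2) (hC : C.1 3 3 = 2)
    {v : Lat 4 →₀ ℕ} (hv : expo v = expo (e A + (e B + e C))) {N : Lat 4} (hN : v N ≠ 0) :
    N.1 3 3 = 2 := by
  obtain ⟨h1, h2⟩ := (expo_eq_iff _ _).mp hv
  rw [map_add, map_add, Finsupp.degree_single, Finsupp.degree_single,
    Finsupp.degree_single] at h1
  rw [matSum_add, matSum_add, matSum_e, matSum_e, matSum_e] at h2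
  apply corner _ hN
  rw [h1, h2, Matrix.add_apply, Matrix.add_apply, hA, hB, hC]

lemma DP_std (hlt : Admissible lt) : Std lt (e D + e P) := by
  have hst := hlt.strictTotal
  apply step_std _ _ (std_single P)
  intro v hv N hN
  obtain ⟨h1, h2⟩ := corner2 (show D.1 3 3 = 2 from rfl) (show P.1 3 3 = 2 from rfl) hv hN
  rcases special_or N h1 with h | h | h | h | h
  · rw [h]; exact irrefl_of lt D
  · exact absurd (h2 1 2) (by rw [h]; decide)
  · exact absurd (h2 0 2) (by rw [h]; decide)
  · exact absurd (h2 0 1) (by rw [h]; decide)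
  · exact e4 D twos_D hlt h

lemma PP_std : Std lt (e P + e P) := by
  intro v hv hne
  exfalso
  obtain ⟨h1, h2⟩ := (expo_eq_iff _ _).mp hv
  rw [map_add, Finsupp.degree_single] at h1
  obtain ⟨X, Y, rfl⟩ := deg_two (show v.degree = 2 by rw [h1])
  have hP : P.1 3 3 = 2 := rfl
  have hX := (corner2 hP hP hv (N := X) (by
    rw [Finsupp.add_apply, Finsupp.single_eq_same]; omega)).1
  have hY := (corner2 hP hP hv (N := Y) (by
    rw [Finsupp.add_apply, Finsupp.single_eq_same]; omega)).1
  rw [matSum_add, matSum_add, matSum_e, matSum_e, matSum_e] at h2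
  have a1 : X.1 0 1 + Y.1 0 1 = 2 := congrFun (congrFun h2 0) 1
  have a2 : X.1 0 2 + Y.1 0 2 = 2 := congrFun (congrFun h2 0) 2
  have a3 : X.1 1 2 + Y.1 1 2 = 2 := congrFun (congrFun h2 1) 2
  have b1 := rows X hX
  have b2 := rows Y hY
  have c1 : P.1 0 1 = 1 := rfl
  have c2 : P.1 0 2 = 1 := rfl
  have c3 : P.1 1 2 = 1 := rfl
  have hXP : X = P := face_ext hX hP (by omega) (by omega) (by omega)
  have hYP : Y = P := face_ext hY hP (by omega) (by omega) (by omega)
  apply hne
  rw [hXP, hYP]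

lemma TT_std (hlt : Admissible lt) {A B : Lat 4} (hA : A.1 3 3 = 2) (hB : B.1 3 3 = 2)
    (tA : twos A = 4) (tB : twos B = 4)
    (h : ∀ N : Lat 4, N.1 3 3 = 2 → (∀ i j, N.1 i j ≤ A.1 i j + B.1 i j) →
      N = A ∨ N = B ∨ twos N < 4) : Std lt (e A + e B) := by
  have hst := hlt.strictTotal
  rcases trichotomous_of lt A B with h1 | h1 | h1
  · apply step_std _ _ (std_single B)
    intro v hv N hN
    obtain ⟨h2, h3⟩ := corner2 hA hB hv hN
    rcases h N h2 h3 with h4 | h4 | h4
    · rw [h4]; exact irrefl_of lt A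
    · rw [h4]; exact fun h5 => irrefl_of lt A (_root_.trans h1 h5)
    · exact e4 A tA hlt h4
  · apply step_std _ _ (std_single B)
    intro v hv N hN
    obtain ⟨h2, h3⟩ := corner2 hA hB hv hN
    rcases h N h2 h3 with h4 | h4 | h4
    · rw [h4]; exact irrefl_of lt A
    · rw [h4, h1]; exact irrefl_of lt B
    · exact e4 A tA hlt h4
  · rw [add_comm]
    apply step_std _ _ (std_single A)
    intro v hv N hN
    obtain ⟨h2, h3⟩ := corner2 hA hB (by rw [hv, add_comm]) hN
    rcases h N h2 h3 with h4 | h4 | h4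
    · rw [h4]; exact fun h5 => irrefl_of lt A (_root_.trans h5 h1)
    · rw [h4]; exact irrefl_of lt B
    · exact e4 B tB hlt h4

lemma T12_std (hlt : Admissible lt) : Std lt (e T1 + e T2) := by
  apply TT_std hlt rfl rfl twos_T1 twos_T2
  intro N hN hle
  rcases special_or N hN with h | h | h | h | h
  · exact absurd (hle 2 2) (by rw [h]; decide)
  · exact Or.inl h
  · exact Or.inr (Or.inl h)
  · exact absurd (hle 0 1) (by rw [h]; decide)
  · exact Or.inr (Or.inr h)

lemma T13_std (hlt : Admissible lt) : Std lt (e T1 + e T3) := by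
  apply TT_std hlt rfl rfl twos_T1 twos_T3
  intro N hN hle
  rcases special_or N hN with h | h | h | h | h
  · exact absurd (hle 1 1) (by rw [h]; decide)
  · exact Or.inl h
  · exact absurd (hle 0 2) (by rw [h]; decide)
  · exact Or.inr (Or.inl h)
  · exact Or.inr (Or.inr h)

lemma T23_std (hlt : Admissible lt) : Std lt (e T2 + e T3) := by
  apply TT_std hlt rfl rfl twos_T2 twos_T3
  intro N hN hle
  rcases special_or N hN with h | h | h | h | h
  · exact absurd (hle 0 0) (by rw [h]; decide)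
  · exact absurd (hle 1 2) (by rw [h]; decide)
  · exact Or.inl h
  · exact Or.inr (Or.inl h)
  · exact Or.inr (Or.inr h)

lemma triple_std (hlt : Admissible lt) {A B C : Lat 4} (hA : A.1 3 3 = 2) (hB : B.1 3 3 = 2)
    (hC : C.1 3 3 = 2) (tA : twos A = 4) (hBC : Std lt (e B + e C))
    (h0 : ¬ lt D A) (h1 : ¬ lt T1 A) (h2 : ¬ lt T2 A) (h3 : ¬ lt T3 A) :
    Std lt (e A + (e B + e C)) := by
  apply step_std _ _ hBC
  intro v hv N hN
  rcases special_or N (corner3 hA hB hC hv hN) with h | h | h | h | h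
  · rw [h]; exact h0
  · rw [h]; exact h1
  · rw [h]; exact h2
  · rw [h]; exact h3
  · exact e4 A tA hlt h

/-- the two monomials -/
noncomputable def uT : Lat 4 →₀ ℕ := e T1 + (e T2 + e T3)
/-- the two monomials -/
noncomputable def uD : Lat 4 →₀ ℕ := e D + (e P + e P)

lemma matSum_uT : matSum uT = T1.1 + (T2.1 + T3.1) := by
  unfold uT
  rw [matSum_add, matSum_add, matSum_e, matSum_e, matSum_e]

lemma matSum_uD : matSum uD = D.1 + (P.1 + P.1) := by
  unfold uD
  rw [matSum_add, matSum_add, matSum_e, matSum_e]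

lemma matSum_eq : matSum uT = matSum uD := by
  rw [matSum_uT, matSum_uD]
  decide

lemma deg_uT : uT.degree = 3 := by
  unfold uT
  rw [map_add, map_add, Finsupp.degree_single, Finsupp.degree_single, Finsupp.degree_single]

lemma deg_uD : uD.degree = 3 := by
  unfold uD
  rw [map_add, map_add, Finsupp.degree_single, Finsupp.degree_single]

lemma uT_ne_uD : uT ≠ uD := by
  intro h
  have h1 : uD D = 0 := by
    rw [← h]
    unfold uT
    have h1 : T1 ≠ D := by decide
    have h2 : T2 ≠ D := by decide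
    have h3 : T3 ≠ D := by decide
    rw [Finsupp.add_apply, Finsupp.add_apply, Finsupp.single_eq_of_ne (Ne.symm h1),
      Finsupp.single_eq_of_ne (Ne.symm h2), Finsupp.single_eq_of_ne (Ne.symm h3), add_zero,
      add_zero]
  unfold uD at h1
  rw [Finsupp.add_apply, Finsupp.single_eq_same] at h1
  omega

lemma block : BlockForm (matSum uD) := by
  rw [matSum_uD]
  refine ⟨{3}, by decide, by decide, by decide⟩

end std4

/-- **Q1 is false.** -/
theorem result :
    (∃ lt : Lat 4 → Lat 4 → Prop, Admissible lt) ∧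
    ∀ lt : Lat 4 → Lat 4 → Prop, Admissible lt → ∀ (k : Type*) [Field k],
      (∃ G : Set (MvPolynomial (Lat 4) k), IsReducedGB lt G) ∧
      ∀ G : Set (MvPolynomial (Lat 4) k), IsReducedGB lt G →
        ∃ u v : Lat 4 →₀ ℕ, u ≠ v ∧ (monomial u 1 - monomial v 1 : MvPolynomial (Lat 4) k) ∈ G ∧
          u.degree = 3 ∧ v.degree = 3 ∧ matSum u = matSum v ∧ BlockForm (matSum u) := by
  refine ⟨exists_admissible 4, fun lt hlt k _ => ⟨exists_reducedGB hlt.strictTotal k, ?_⟩⟩
  intro G hG
  have hst := hlt.strictTotal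
  have hexp : expo uT = expo uD := by
    rw [expo_eq_iff]
    exact ⟨by rw [deg_uT, deg_uD], matSum_eq⟩
  have irr : ∀ X : Lat 4, ¬ lt X X := fun X => irrefl_of lt X
  have tr : ∀ {X Y Z : Lat 4}, lt X Y → lt Y Z → lt X Z := fun h h' => _root_.trans h h'
  have tri : ∀ X Y : Lat 4, lt X Y ∨ X = Y ∨ lt Y X := fun X Y => trichotomous_of lt X Y
  by_cases hD : ¬ lt T1 D ∧ ¬ lt T2 D ∧ ¬ lt T3 D
  · refine ⟨uT, uD, uT_ne_uD, ?_, deg_uT, deg_uD, matSum_eq, by rw [matSum_eq]; exact block⟩
    apply mem_of_reducedGB hst hexp uT_ne_uD _ _ G hG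
    · exact triple_std hlt rfl rfl rfl twos_D PP_std (irr D) hD.1 hD.2.1 hD.2.2
    · exact div_of (T12_std hlt) (T13_std hlt) (T23_std hlt)
  · refine ⟨uD, uT, uT_ne_uD.symm, ?_, deg_uD, deg_uT, matSum_eq.symm, block⟩
    apply mem_of_reducedGB hst hexp.symm uT_ne_uD.symm _ _ G hG
    · have hmin : ∀ A : Lat 4, ¬ lt T1 A → ¬ lt T2 A → ¬ lt T3 A → ¬ lt D A := by
        intro A h1 h2 h3 h4
        apply hD
        exact ⟨fun h => h1 (tr h h4), fun h => h2 (tr h h4), fun h => h3 (tr h h4)⟩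
      have hcases : (¬ lt T2 T1 ∧ ¬ lt T3 T1) ∨ (¬ lt T1 T2 ∧ ¬ lt T3 T2) ∨
          (¬ lt T1 T3 ∧ ¬ lt T2 T3) := by
        by_contra hc
        push Not at hc
        obtain ⟨c1, c2, c3⟩ := hc
        by_cases h21 : lt T2 T1
        · have h12 : ¬ lt T1 T2 := fun h => irr _ (tr h h21)
          have h32 := c2 h12
          have h13 : ¬ lt T1 T3 := fun h => irr _ (tr (tr h h32) h21)
          exact irr _ (tr (c3 h13) h32)
        · have h31 := c1 h21
          have h13 : ¬ lt T1 T3 := fun h => irr _ (tr h h31)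
          exact h21 (tr (c3 h13) h31)
      rcases hcases with ⟨h1, h2⟩ | ⟨h1, h2⟩ | ⟨h1, h2⟩
      · exact triple_std hlt rfl rfl rfl twos_T1 (T23_std hlt) (hmin T1 (irr T1) h1 h2) (irr T1)
          h1 h2
      · have : uT = e T2 + (e T1 + e T3) := by unfold uT; abel
        rw [this]
        exact triple_std hlt rfl rfl rfl twos_T2 (T13_std hlt) (hmin T2 h1 (irr T2) h2) h1
          (irr T2) h2
      · have : uT = e T3 + (e T1 + e T2) := by unfold uT; abel
        rw [this]
        exact triple_std hlt rfl rfl rfl twos_T3 (T12_std hlt) (hmin T3 h1 h2 (irr T3)) h1 h2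
          (irr T3)
    · exact div_of (DP_std hlt) (DP_std hlt) PP_std

end Pool.Agent.Results.MP_dd0c5a_co.DisconnectedElement
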